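import Pool.Agent.DyMax.Final

/-!
# A dimension-free weak type (1,1) bound for the lacunary ball maximal function

The maximal function over the centred Euclidean balls of radii `2 ^ k * R`, `k` an integer, satisfies
the weak type (1,1) inequality with a constant which depends neither on the dimension nor on `R`.
With `R` the radius of the ball of volume one it is the operator called `M tilde` in the problem.
-/

open MeasureTheory
open scoped ENNReal

namespace Pool.Agent.Results.MP_a6dc0c_an.LacunaryDimensionFree

/-- There is an absolute constant `C` such that, for every dimension `n ≥ 1` and every `R > 0`, the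
maximal function over the balls of radii `2 ^ k * R`, `k` in `ℤ`, satisfies the weak type (1,1)
inequality with constant `C`. -/
theorem result : ∃ C : ℝ, 0 < C ∧ ∀ n : ℕ, 1 ≤ n → ∀ R : ℝ, 0 < R →
    ∀ f : EuclideanSpace ℝ (Fin n) → ℝ, Integrable f →
      ∀ s : ℝ, 0 < s →
        volume {x : EuclideanSpace ℝ (Fin n) |
            ENNReal.ofReal s <
              ⨆ k : ℤ, (volume (Metric.ball x ((2 : ℝ) ^ k * R)))⁻¹ *
                ∫⁻ y in Metric.ball x ((2 : ℝ) ^ k * R), ‖f y‖ₑ}
          ≤ ENNReal.ofReal (C / s) * ∫⁻ y, ‖f y‖ₑ :=
  Pool.DyMax.final_all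

end Pool.Agent.Results.MP_a6dc0c_an.LacunaryDimensionFree
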