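import Pool.Agent.MaxFn.Polylog

/-!
# A polylogarithmic bound for the weak type (1,1) constant of the centred ball maximal function

The best constant in dimension `n` is at most `C * (1 + log n) ^ 4`.
-/

open MeasureTheory
open scoped ENNReal

namespace Pool.Agent.Results.MP_a6dc0c_an.PolylogBound

/-- There is an absolute constant `C` such that, for every dimension `n ≥ 1`, the centred maximal
function over Euclidean balls satisfies the weak type (1,1) inequality with constant
`C * (1 + log n) ^ 4`. -/
theorem result : ∃ C : ℝ, 0 < C ∧ ∀ n : ℕ, 1 ≤ n →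
    ∀ f : EuclideanSpace ℝ (Fin n) → ℝ, Integrable f →
      ∀ s : ℝ, 0 < s →
        volume {x : EuclideanSpace ℝ (Fin n) |
            ENNReal.ofReal s <
              ⨆ r : ℝ, ⨆ (_ : 0 < r),
                (volume (Metric.ball x r))⁻¹ * ∫⁻ y in Metric.ball x r, ‖f y‖ₑ}
          ≤ ENNReal.ofReal (C * (1 + Real.log n) ^ 4 / s) * ∫⁻ y, ‖f y‖ₑ :=
  Pool.MaxFn.polylog

end Pool.Agent.Results.MP_a6dc0c_an.PolylogBound
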